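import Pool.Agent.helper83.FI.SpecR

set_option autoImplicit false

namespace Pool.Agent.FI

open Pool.Agent.helper58.DC Pool.Agent.DI Pool.Agent.GR Pool.Agent.OB

theorem RR1_pow {G : Type} [Group G] (g : G) (i : G → ℂ) (h : ∀ x, i (g * x * g⁻¹) = i x) (k : ℕ) :
    ∀ x, i (g ^ k * x * (g ^ k)⁻¹) = i x := by
  induction k with
  | zero => intro x; simp
  | succ k ih =>
    intro x
    have e : g ^ (k + 1) * x * (g ^ (k + 1))⁻¹ = g ^ k * (g * x * g⁻¹) * (g ^ k)⁻¹ := by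
      rw [pow_succ]
      group
    rw [e, ih, h]

theorem RR1_cz {G : Type} [Group G] (H : Subgroup G) (y x : G) (hx : x ∈ H) (h : y * x = x * y) : x ∈ Cz H y := by
  refine Subgroup.mem_inf.2 ⟨hx, ?_⟩
  rw [Subgroup.mem_centralizer_iff]
  intro g hg
  rw [Set.mem_singleton_iff.1 hg]
  exact h

theorem RR1_key (hRCY : RCY_stmt) (p : ℕ) (M : Ideal (integralClosure ℤ ℂ)) (hS : Setup p M) (G : Type) [Group G] [Finite G]
    (H : Subgroup G) (y : G) (hyH : y ∈ H) (hy : PEl p y) (i₁ i₂ j₁ j₂ : G → ℂ) (h1 : Idm M H i₁) (h2 : Idm M H i₂)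
    (h3 : Idm M H j₁) (h4 : Idm M H j₂) (c1 : ∀ x, i₁ (y * x * y⁻¹) = i₁ x) (c2 : ∀ x, i₂ (y * x * y⁻¹) = i₂ x)
    (c3 : ∀ x, j₁ (y * x * y⁻¹) = j₁ x) (c4 : ∀ x, j₂ (y * x * y⁻¹) = j₂ x)
    (d1 : ∀ x ∈ Cz H y, InM M (i₁ x - j₁ x)) (d2 : ∀ x ∈ Cz H y, InM M (i₂ x - j₂ x)) (z : G) (hz : z ∈ H) (w : G) (hw : w ∈ H)
    (hzy : z⁻¹ * y * z = y) (hwy : w⁻¹ * y * w = y) : InM M (co i₁ i₂ z w - co j₁ j₂ z w) := by
  classical
  have a1 := hRCY p M hS G y y hy i₁ i₂ h1.int h2.int c1 c2 z w hzy hwy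
  have a2 := hRCY p M hS G y y hy j₁ j₂ h3.int h4.int c3 c4 z w hzy hwy
  have hzc : y * z = z * y := by
    calc y * z = z * (z⁻¹ * y * z) := by group
      _ = z * y := by rw [hzy]
  have hwc : y * w = w * y := by
    calc y * w = w * (w⁻¹ * y * w) := by group
      _ = w * y := by rw [hwy]
  have a3 : InM M (co (rs y i₁) i₂ z w - co (rs y j₁) j₂ z w) := by
    unfold co
    rw [← finsum_sub_distrib (Set.toFinite _) (Set.toFinite _)]
    apply InM.finsum hS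
    intro x
    by_cases hx : y * x = x * y
    · by_cases hxH : x ∈ H
      · have e1 : rs y i₁ x = i₁ x := by unfold rs; rw [if_pos hx]
        have e2 : rs y j₁ x = j₁ x := by unfold rs; rw [if_pos hx]
        have m1 : x ∈ Cz H y := RR1_cz H y x hxH hx
        have m2 : w⁻¹ * (x⁻¹ * z) ∈ Cz H y := by
          refine RR1_cz H y _ (H.mul_mem (H.inv_mem hw) (H.mul_mem (H.inv_mem hxH) hz)) ?_
          have k1 : Commute y w := hwc
          have k2 : Commute y x := hx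
          have k3 : Commute y z := hzc
          exact (k1.inv_right.mul_right (k2.inv_right.mul_right k3)).eq
        rw [e1, e2]
        have e3 : i₁ x * i₂ (w⁻¹ * (x⁻¹ * z)) - j₁ x * j₂ (w⁻¹ * (x⁻¹ * z)) =
            i₁ x * (i₂ (w⁻¹ * (x⁻¹ * z)) - j₂ (w⁻¹ * (x⁻¹ * z))) + (i₁ x - j₁ x) * j₂ (w⁻¹ * (x⁻¹ * z)) := by ring
        rw [e3]
        exact InM.add hS (InM.mul_left hS (h1.int _) (d2 _ m2)) (InM.mul_right hS (d1 _ m1) (h4.int _))
      · have e1 : rs y i₁ x = 0 := by unfold rs; rw [if_pos hx]; exact h1.sup x hxH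
        have e2 : rs y j₁ x = 0 := by unfold rs; rw [if_pos hx]; exact h3.sup x hxH
        rw [e1, e2, zero_mul, zero_mul, sub_zero]
        exact InM.zero hS
    · have e1 : rs y i₁ x = 0 := by unfold rs; rw [if_neg hx]
      have e2 : rs y j₁ x = 0 := by unfold rs; rw [if_neg hx]
      rw [e1, e2, zero_mul, zero_mul, sub_zero]
      exact InM.zero hS
  have e : co i₁ i₂ z w - co j₁ j₂ z w = (co i₁ i₂ z w - co (rs y i₁) i₂ z w) + (co (rs y i₁) i₂ z w - co (rs y j₁) j₂ z w) -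
      (co j₁ j₂ z w - co (rs y j₁) j₂ z w) := by ring
  rw [e]
  exact InM.sub hS (InM.add hS a1 a3) a2

theorem RR1 (hRGK : RGK_stmt) (hRCY : RCY_stmt) (hRPY : RPY_stmt) (hCJI : CJI_stmt) (hB2 : B2_stmt) : RR1_stmt := by
  classical
  intro p M hS G _ _ H y hyH v hvH hy hv hyv i i' hi hi' ci ci' hd χ hχ
  have hgH : y * v ∈ H := H.mul_mem hyH hvH
  obtain ⟨⟨k, hk⟩, _⟩ := hRPY p hS.pr G y v hy hv hyv
  have cy : ∀ x, i (y * x * y⁻¹) = i x := by
    intro x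
    have := RR1_pow (y * v) i ci k x
    rwa [hk] at this
  have cy' : ∀ x, i' (y * x * y⁻¹) = i' x := by
    intro x
    have := RR1_pow (y * v) i' ci' k x
    rwa [hk] at this
  have hd' : ∀ x ∈ Cz H y, InM M (i' x - i x) := by
    intro x hx
    have := (hd x hx).neg
    rwa [neg_sub] at this
  have h00 : ∀ x ∈ Cz H y, InM M (i x - i x) := by
    intro x _
    rw [sub_self]
    exact InM.zero hS
  have t1 := hRGK p M hS G H y hyH v hvH y hyH v hvH hy hy hv hv hyv hyv i i i i' hi hi hi hi' ci ci ci ci'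
    (fun z hz w hw a b => RR1_key hRCY p M hS G H y hyH hy i i i i' hi hi hi hi' cy cy cy cy' h00 hd z hz w hw a b)
  have t2 := hRGK p M hS G H y hyH v hvH y hyH v hvH hy hy hv hv hyv hyv i i i' i hi hi hi' hi ci ci' ci ci
    (fun z hz w hw a b => RR1_key hRCY p M hS G H y hyH hy i i i' i hi hi hi' hi cy cy cy' cy hd h00 z hz w hw a b)
  have t3 := hRGK p M hS G H y hyH v hvH y hyH v hvH hy hy hv hv hyv hyv i i i' i' hi hi hi' hi' ci ci' ci ci'
    (fun z hz w hw a b => RR1_key hRCY p M hS G H y hyH hy i i i' i' hi hi hi' hi' cy cy cy' cy' hd hd z hz w hw a b)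
  have hfin : (IrrOn H).Finite := (hB2 G H).1
  set g := y * v with hg
  have cg : ∀ χ' ∈ IrrOn H, (ev χ' i g - ev χ' i' g) * (ev χ' i g⁻¹ - ev χ' i' g⁻¹) =
      ((‖ev χ' i g - ev χ' i' g‖ ^ 2 : ℝ) : ℂ) := by
    intro χ' hχ'
    rw [hCJI G H i hi.sup hi.idem g hgH ci χ' hχ', hCJI G H i' hi'.sup hi'.idem g hgH ci' χ' hχ', ← map_sub, Complex.mul_conj,
      Complex.normSq_eq_norm_sq]
  rw [finsum_mem_eq_finite_toFinset_sum _ hfin, finsum_mem_eq_finite_toFinset_sum _ hfin] at t1 t2 t3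
  have hsum : ∑ χ' ∈ hfin.toFinset, ‖ev χ' i g - ev χ' i' g‖ ^ 2 = 0 := by
    have h1 : ((∑ χ' ∈ hfin.toFinset, ‖ev χ' i g - ev χ' i' g‖ ^ 2 : ℝ) : ℂ) = 0 := by
      rw [Complex.ofReal_sum]
      have h2 : ∀ χ' ∈ hfin.toFinset, ((‖ev χ' i g - ev χ' i' g‖ ^ 2 : ℝ) : ℂ) =
          ev χ' i g * ev χ' i g⁻¹ - ev χ' i g * ev χ' i' g⁻¹ - ev χ' i' g * ev χ' i g⁻¹ + ev χ' i' g * ev χ' i' g⁻¹ := by
        intro χ' hχ'
        rw [← cg χ' (hfin.mem_toFinset.1 hχ')]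
        ring
      rw [Finset.sum_congr rfl h2, Finset.sum_add_distrib, Finset.sum_sub_distrib, Finset.sum_sub_distrib, ← t1, ← t2, ← t3]
      ring
    exact_mod_cast h1
  have h3 := (Finset.sum_eq_zero_iff_of_nonneg (fun χ' _ => by positivity)).1 hsum χ (hfin.mem_toFinset.2 hχ)
  have h4 : ‖ev χ i g - ev χ i' g‖ = 0 := by
    exact pow_eq_zero_iff (two_ne_zero) |>.1 h3
  exact sub_eq_zero.1 (norm_eq_zero.1 h4)

end Pool.Agent.FI
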