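import Pool.Agent.helper1.FI.SpecQ2

set_option autoImplicit false

namespace Pool.Agent.FI

open Pool.Agent.helper58.DC Pool.Agent.DI Pool.Agent.GR Pool.Agent.OB

theorem QCG (hALP : ALP_stmt) (hGDC : GDC_stmt) (hTPR : TPR_stmt) : QCG_stmt := by
  intro p M hS G _ _ D x θ χ hr
  obtain ⟨_, hind, hdef, _, _⟩ := hTPR p M hS G
  have h1 : DefL p M ⊤ χ D x := hdef χ D x hr.dfa
  have h2 : SB M ⊤ θ χ := (hind θ χ).1 hr.ind
  have e : (⊤ : Subgroup G) ⊓ cz D = cz D := top_inf_eq _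
  have h3 : θ ∈ IrrOn ((⊤ : Subgroup G) ⊓ cz D) := by
    rw [e]
    exact hr.th
  obtain ⟨w, hw, _, hreg, _, _, hne, hdl, n, k, hn, hk, hpk⟩ := hALP p M hS G ⊤ D x χ h1 hr.com θ h3 h2
  rw [e] at hw hdl hk
  exact ⟨⟨w, hw, hreg, hne⟩, ⟨n, k, hn, hk, hpk⟩, hGDC p M hS G (cz D) D w le_rfl θ hr.th hdl⟩

end Pool.Agent.FI
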